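import Pool.Agent.L0h58.HY.Stm

/-!
# HNKB: independence of all the equations of a block Hankel matrix for one vector
-/

set_option autoImplicit false

namespace Pool.Agent.L0h48.HY

open Finset Pool.Agent.L0h58.HY

lemma bpos_lt {K : ℕ} (d : Fin K) (c : Fin 6) : bpos K d c < 6 * K := by
  unfold bpos
  have h1 := d.2
  have h2 : (c : ℕ) * K ≤ 5 * K := Nat.mul_le_mul_right _ (by omega)
  omega

lemma bpos_inj {K : ℕ} {d d' : Fin K} {c c' : Fin 6} (h : bpos K d c = bpos K d' c') :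
    d = d' ∧ c = c' := by
  unfold bpos at h
  have h1 := d.2
  have h2 := d'.2
  have key : (c : ℕ) = c' := by
    rcases lt_trichotomy (c : ℕ) (c' : ℕ) with h3 | h3 | h3
    · have h4 : ((c : ℕ) + 1) * K ≤ c' * K := Nat.mul_le_mul_right _ h3
      rw [add_mul, one_mul] at h4
      omega
    · exact h3
    · have h4 : ((c' : ℕ) + 1) * K ≤ c * K := Nat.mul_le_mul_right _ h3
      rw [add_mul, one_mul] at h4
      omega
  rw [key] at h
  exact ⟨Fin.ext (by omega), Fin.ext key⟩

section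

variable {F : Type} [Field F] [Algebra (ZMod 2) F]

lemma extS_add {R : ℕ} (S S' : Fin R → F) (j : ℕ) : extS (S + S') j = extS S j + extS S' j := by
  unfold extS
  split_ifs <;> simp

lemma extS_smul {R : ℕ} (a : ZMod 2) (S : Fin R → F) (j : ℕ) : extS (a • S) j = a • extS S j := by
  unfold extS
  split_ifs <;> simp

lemma extS_single {R J : ℕ} (hJ : J < R) (z : F) (j : ℕ) :
    extS (Pi.single (⟨J, hJ⟩ : Fin R) z : Fin R → F) j = if j = J then z else 0 := by
  unfold extS
  by_cases h : j < R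
  · rw [dif_pos h]
    by_cases h1 : j = J
    · subst h1
      simp
    · rw [if_neg h1, Pi.single_eq_of_ne]
      intro h2
      exact h1 (congrArg Fin.val h2)
  · rw [dif_neg h, if_neg (by omega)]

/-- the linear map given by the equations -/
noncomputable def Phi {n K ρ R : ℕ} (η : ℕ) (e : (Fin ρ → ZMod 2) ≃ₗ[ZMod 2] F) (θ : F)
    (A : Finset (Fin n)) (Y : Fin K × Fin 6 × Fin ρ → ZMod 2) :
    (Fin R → F) →ₗ[ZMod 2] (A → ZMod 2) where
  toFun S i := Y ⬝ᵥ bhank η e θ (extS S) i.1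
  map_add' S S' := by
    funext i
    have h : (bhank η e θ (extS (S + S')) i.1 : Fin K × Fin 6 × Fin ρ → ZMod 2) =
        bhank η e θ (extS S) i.1 + bhank η e θ (extS S') i.1 := by
      funext p
      simp only [bhank, Pi.add_apply, extS_add, mul_add, map_add]
    rw [h, dotProduct_add]
    rfl
  map_smul' a S := by
    funext i
    have h : (bhank η e θ (extS (a • S)) i.1 : Fin K × Fin 6 × Fin ρ → ZMod 2) =
        a • bhank η e θ (extS S) i.1 := by
      funext p
      simp only [bhank, Pi.smul_apply, extS_smul, mul_smul_comm, map_smul]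
    rw [h, dotProduct_smul]
    rfl

lemma surj {n K ρ R η : ℕ} (e : (Fin ρ → ZMod 2) ≃ₗ[ZMod 2] F) (θ : F) (he : PowBasis e θ)
    (h1 : 1 ≤ η) (hη : η ≤ ρ) (hR : n / η + 6 * K < R) (A : Finset (Fin n))
    (Y : Fin K × Fin 6 × Fin ρ → ZMod 2) (hY : Y ≠ 0) (Φ : (Fin R → F) →ₗ[ZMod 2] (A → ZMod 2))
    (hΦ : ∀ S i, Φ S i = ∑ p : Fin K × Fin 6 × Fin ρ, Y p *
      e.symm (θ ^ ((i.1 : ℕ) % η) * extS S ((i.1 : ℕ) / η + bpos K p.1 p.2.1)) p.2.2) :
    Function.Surjective Φ := by
  classical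
  rw [← LinearMap.dualMap_injective_iff, injective_iff_map_eq_zero]
  intro g hg
  obtain ⟨c, hc⟩ : ∃ c : A → ZMod 2, c = fun i => g (fun j => if i = j then 1 else 0) := ⟨_, rfl⟩
  have hgc : ∀ v : A → ZMod 2, g v = ∑ i, v i * c i := by
    intro v
    rw [LinearMap.pi_apply_eq_sum_univ g v, hc]
    rfl
  by_contra hg0
  have hne : (univ.filter fun i : A => c i ≠ 0).Nonempty := by
    by_contra h
    rw [not_nonempty_iff_eq_empty, filter_eq_empty_iff] at h
    apply hg0
    refine LinearMap.ext fun v => ?_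
    rw [hgc, LinearMap.zero_apply]
    refine sum_eq_zero fun i _ => ?_
    have := h (mem_univ i)
    rw [not_not] at this
    rw [this, mul_zero]
  obtain ⟨i0, hi0, hmax⟩ := exists_max_image _ (fun i : A => (i.1 : ℕ) / η) hne
  have hBne : (univ.filter fun q : Fin K × Fin 6 => ∃ a, Y (q.1, q.2, a) ≠ 0).Nonempty := by
    by_contra h
    rw [not_nonempty_iff_eq_empty, filter_eq_empty_iff] at h
    apply hY
    funext ⟨d, c', a⟩
    by_contra h2
    exact h (mem_univ (d, c')) ⟨a, h2⟩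
  obtain ⟨q0, hq0, hqmax⟩ := exists_max_image _ (fun q : Fin K × Fin 6 => bpos K q.1 q.2) hBne
  obtain ⟨a0, ha0⟩ := (mem_filter.1 hq0).2
  have hi0' := (mem_filter.1 hi0).2
  obtain ⟨J, hJ⟩ : ∃ J, J = (i0.1 : ℕ) / η + bpos K q0.1 q0.2 := ⟨_, rfl⟩
  have hJR : J < R := by
    have h2 := bpos_lt q0.1 q0.2
    have h3 : (i0.1 : ℕ) / η ≤ n / η := Nat.div_le_div_right i0.1.2.le
    omega
  -- the nonzero terms
  have hcond : ∀ i : A, c i ≠ 0 → ∀ d c' a, Y (d, c', a) ≠ 0 → (i.1 : ℕ) / η + bpos K d c' = J →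
      (i.1 : ℕ) / η = (i0.1 : ℕ) / η ∧ d = q0.1 ∧ c' = q0.2 := by
    intro i hi d c' a hYp h
    have h2 : (i.1 : ℕ) / η ≤ (i0.1 : ℕ) / η := hmax i (mem_filter.2 ⟨mem_univ _, hi⟩)
    have h3 : bpos K d c' ≤ bpos K q0.1 q0.2 :=
      hqmax (d, c') (mem_filter.2 ⟨mem_univ _, a, hYp⟩)
    exact ⟨by omega, bpos_inj (by omega)⟩
  obtain ⟨φ, hφ⟩ : ∃ φ : F → ZMod 2, ∀ x, φ x = (fun a => Y (q0.1, q0.2, a)) ⬝ᵥ e.symm x :=
    ⟨_, fun _ => rfl⟩
  have hval : ∀ (z : F) (i : A), c i ≠ 0 →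
      Φ (Pi.single (⟨J, hJR⟩ : Fin R) z) i =
        if (i.1 : ℕ) / η = (i0.1 : ℕ) / η then φ (θ ^ ((i.1 : ℕ) % η) * z) else 0 := by
    intro z i hi
    rw [hΦ]
    simp only [extS_single]
    by_cases h : (i.1 : ℕ) / η = (i0.1 : ℕ) / η
    · rw [if_pos h, Fintype.sum_prod_type, sum_eq_single q0.1, Fintype.sum_prod_type,
        sum_eq_single q0.2]
      · rw [hφ]
        refine sum_congr rfl fun a _ => ?_
        rw [if_pos (by change _ + bpos K q0.1 q0.2 = J; omega)]
      · intro c' _ hc'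
        refine sum_eq_zero fun a _ => ?_
        by_cases hYp : Y (q0.1, c', a) = 0
        · rw [hYp, zero_mul]
        · rw [if_neg fun h2 => hc' (hcond i hi _ _ _ hYp h2).2.2, mul_zero, map_zero]
          exact mul_zero _
      · intro h2
        exact absurd (mem_univ _) h2
      · intro d _ hd
        rw [Fintype.sum_prod_type]
        refine sum_eq_zero fun c' _ => sum_eq_zero fun a _ => ?_
        by_cases hYp : Y (d, c', a) = 0
        · rw [hYp, zero_mul]
        · rw [if_neg fun h2 => hd (hcond i hi _ _ _ hYp h2).2.1, mul_zero, map_zero]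
          exact mul_zero _
      · intro h2
        exact absurd (mem_univ _) h2
    · rw [if_neg h]
      refine sum_eq_zero fun p _ => ?_
      obtain ⟨d, c', a⟩ := p
      by_cases hYp : Y (d, c', a) = 0
      · rw [hYp, zero_mul]
      · rw [if_neg fun h2 => h (hcond i hi _ _ _ hYp h2).1, mul_zero, map_zero]
        exact mul_zero _
  obtain ⟨w, hw⟩ : ∃ w : F, w = ∑ i : A, if (i.1 : ℕ) / η = (i0.1 : ℕ) / η then
    c i • θ ^ ((i.1 : ℕ) % η) else 0 := ⟨_, rfl⟩
  have hφw : ∀ z, φ (w * z) = 0 := by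
    intro z
    have h2 : g (Φ (Pi.single (⟨J, hJR⟩ : Fin R) z)) = 0 := by
      rw [← LinearMap.dualMap_apply, hg, LinearMap.zero_apply]
    rw [hgc] at h2
    rw [← h2, hφ, hw, sum_mul, map_sum, dotProduct_sum]
    refine sum_congr rfl fun i _ => ?_
    by_cases hci : c i = 0
    · rw [hci, mul_zero, zero_smul, ite_self, zero_mul, map_zero, dotProduct_zero]
    · rw [hval z i hci]
      split_ifs with h3
      · rw [hφ, smul_mul_assoc, map_smul, dotProduct_smul, smul_eq_mul, mul_comm]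
      · rw [zero_mul, zero_mul, map_zero, dotProduct_zero]
  have hw0 : w ≠ 0 := by
    intro h0
    obtain ⟨v, hv⟩ : ∃ v : Fin ρ → ZMod 2, v = fun a : Fin ρ => ∑ i : A,
      if (i.1 : ℕ) / η = (i0.1 : ℕ) / η ∧ (i.1 : ℕ) % η = (a : ℕ) then c i else 0 := ⟨_, rfl⟩
    have hev : e v = w := by
      rw [he, hw, hv]
      simp only [sum_smul]
      rw [sum_comm]
      refine sum_congr rfl fun i _ => ?_
      have hlt : (i.1 : ℕ) % η < ρ := lt_of_lt_of_le (Nat.mod_lt _ h1) hη
      by_cases h3 : (i.1 : ℕ) / η = (i0.1 : ℕ) / η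
      · rw [if_pos h3, sum_eq_single (⟨(i.1 : ℕ) % η, hlt⟩ : Fin ρ)]
        · rw [if_pos ⟨h3, rfl⟩]
        · intro a _ ha
          rw [if_neg, zero_smul]
          rintro ⟨-, h4⟩
          exact ha (Fin.ext h4.symm)
        · intro h4
          exact absurd (mem_univ _) h4
      · rw [if_neg h3]
        refine sum_eq_zero fun a _ => ?_
        rw [if_neg fun h4 => h3 h4.1, zero_smul]
    rw [h0] at hev
    have hv0 : v = 0 := (LinearEquiv.map_eq_zero_iff e).1 hev
    have hlt : (i0.1 : ℕ) % η < ρ := lt_of_lt_of_le (Nat.mod_lt _ h1) hη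
    have h4 := congrFun hv0 (⟨(i0.1 : ℕ) % η, hlt⟩ : Fin ρ)
    rw [hv] at h4
    simp only [Pi.zero_apply] at h4
    rw [sum_eq_single i0] at h4
    · rw [if_pos ⟨rfl, rfl⟩] at h4
      exact hi0' h4
    · intro i _ hi
      rw [if_neg]
      rintro ⟨h5, h6⟩
      apply hi
      have h7 := Nat.div_add_mod (i.1 : ℕ) η
      have h8 := Nat.div_add_mod (i0.1 : ℕ) η
      rw [h5, h6, h8] at h7
      exact Subtype.ext (Fin.ext h7.symm)
    · intro h5
      exact absurd (mem_univ _) h5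
  have hφ0 : ∀ x, φ x = 0 := by
    intro x
    have h2 := hφw (w⁻¹ * x)
    rwa [← mul_assoc, mul_inv_cancel₀ hw0, one_mul] at h2
  have h2 := hφ0 (e (Pi.single a0 1))
  rw [hφ] at h2
  simp only [LinearEquiv.symm_apply_apply, dotProduct_single, mul_one] at h2
  exact ha0 h2

end

theorem t_HNKB : S_HNKB := by
  classical
  intro n η K ρ R F _ _ _ e θ he h1 hη hR A Y hY
  have hs := surj (R := R) e θ he h1 hη hR A Y hY (Phi (R := R) η e θ A Y) fun S i => rfl
  have h2 := LinearMap.finrank_range_add_finrank_ker (Phi (R := R) η e θ A Y)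
  rw [LinearMap.range_eq_top.2 hs, finrank_top, Module.finrank_fintype_fun_eq_card,
    Fintype.card_coe] at h2
  have h3 : (univ.filter fun S : Fin R → F => ∀ i ∈ A,
      Y ⬝ᵥ bhank η e θ (extS S) i = 0).card =
        Nat.card (LinearMap.ker (Phi (R := R) η e θ A Y)) := by
    rw [← Fintype.card_subtype, ← Nat.card_eq_fintype_card]
    refine Nat.card_congr (Equiv.subtypeEquivRight fun S => ?_)
    rw [LinearMap.mem_ker]
    constructor
    · intro h
      funext i
      exact h i.1 i.2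
    · intro h i hi
      exact congrFun h ⟨i, hi⟩
  have h4 : Nat.card (LinearMap.ker (Phi (R := R) η e θ A Y)) =
      2 ^ Module.finrank (ZMod 2) (LinearMap.ker (Phi (R := R) η e θ A Y)) := by
    rw [Module.natCard_eq_pow_finrank (K := ZMod 2)]
    simp
  have h5 : Fintype.card F ^ R = 2 ^ Module.finrank (ZMod 2) (Fin R → F) := by
    have h6 := Module.card_eq_pow_finrank (K := ZMod 2) (V := Fin R → F)
    rw [Fintype.card_fun, Fintype.card_fin, ZMod.card] at h6
    exact h6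
  rw [h3, h4, h5, ← pow_add, ← h2, add_comm]

end Pool.Agent.L0h48.HY
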